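import Mathlib

set_option autoImplicit false

namespace Pool.Agent.Results.MP_df5a7a_co.Counter

/-- Every vertex has a neighbour in `S`. -/
def IsTD {V : Type} (G : SimpleGraph V) (S : Set V) : Prop := ∀ v, ∃ u ∈ S, G.Adj v u

/-- `G` has two disjoint total dominating sets. -/
def TwoTD {V : Type} (G : SimpleGraph V) : Prop :=
  ∃ S T : Set V, Disjoint S T ∧ IsTD G S ∧ IsTD G T

/-- The least number of edges whose addition gives two disjoint total dominating sets. -/
noncomputable def td {V : Type} (G : SimpleGraph V) : ℕ :=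
  sInf {m | ∃ H : SimpleGraph V, G ≤ H ∧ (H.edgeSet \ G.edgeSet).ncard = m ∧ TwoTD H}

def R {m : ℕ} (p q : Fin m × Fin m) : Prop := p.1 ≠ p.2 ∧ (q = (p.1, p.1) ∨ q = (p.2, p.2))

def G (m : ℕ) : SimpleGraph (Fin m × Fin m) where
  Adj p q := R p q ∨ R q p
  symm := ⟨fun _ _ h => h.symm⟩
  loopless := ⟨fun p h => by
    have h : R p p := h.elim id id
    obtain ⟨h1, h2 | h2⟩ := h
    · exact h1 (Prod.ext_iff.1 h2).2.symm
    · exact h1 (Prod.ext_iff.1 h2).1⟩

theorem adj_off {m : ℕ} {p q : Fin m × Fin m} (hp : p.1 ≠ p.2) (h : (G m).Adj p q) :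
    q = (p.1, p.1) ∨ q = (p.2, p.2) := by
  rcases h with h | ⟨_, h | h⟩
  · exact h.2
  · exact absurd (by rw [h]) hp
  · exact absurd (by rw [h]) hp

theorem conn (m : ℕ) (hm : 0 < m) : (G m).Connected := by
  have h1 : ∀ p : Fin m × Fin m, (G m).Reachable p (p.1, p.1) := by
    intro p
    by_cases h : p.1 = p.2
    · have : p = (p.1, p.1) := Prod.ext rfl h.symm
      rw [← this]
    · exact SimpleGraph.Adj.reachable (Or.inl ⟨h, Or.inl rfl⟩)
  have h2 : ∀ i j : Fin m, (G m).Reachable (i, i) (j, j) := by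
    intro i j
    by_cases h : i = j
    · rw [h]
    · exact (h1 (i, j)).symm.trans (SimpleGraph.Adj.reachable (Or.inl ⟨h, Or.inr rfl⟩))
  have : Nonempty (Fin m × Fin m) := ⟨(⟨0, hm⟩, ⟨0, hm⟩)⟩
  exact ⟨fun p q => (h1 p).trans ((h2 _ _).trans (h1 q).symm)⟩

theorem mindeg (m : ℕ) (hm : 2 ≤ m) (p : Fin m × Fin m) : 2 ≤ ((G m).neighborSet p).ncard := by
  have : Nontrivial (Fin m) := Fin.nontrivial_iff_two_le.2 hm
  have key : ∃ a b, a ≠ b ∧ (G m).Adj p a ∧ (G m).Adj p b := by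
    obtain ⟨i, j⟩ := p
    by_cases h : i = j
    · subst h
      obtain ⟨j, hj⟩ := exists_ne i
      exact ⟨(i, j), (j, i), fun h => hj (Prod.ext_iff.1 h).2, Or.inr ⟨hj.symm, Or.inl rfl⟩,
        Or.inr ⟨hj, Or.inr rfl⟩⟩
    · exact ⟨(i, i), (j, j), fun h' => h (Prod.ext_iff.1 h').1, Or.inl ⟨h, Or.inl rfl⟩,
        Or.inl ⟨h, Or.inr rfl⟩⟩
  obtain ⟨a, b, hab, ha, hb⟩ := key
  rw [← Set.ncard_pair hab]
  refine Set.ncard_le_ncard ?_ (Set.toFinite _)
  rintro x (rfl | rfl)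
  · exact ha
  · exact hb

theorem top_two (m : ℕ) (hm : 2 ≤ m) : TwoTD (⊤ : SimpleGraph (Fin m × Fin m)) := by
  have : Nontrivial (Fin m) := Fin.nontrivial_iff_two_le.2 hm
  obtain ⟨i, j, hij⟩ := exists_pair_ne (Fin m)
  have h : ∀ i : Fin m, IsTD (⊤ : SimpleGraph (Fin m × Fin m)) {p | p.1 = i} := by
    intro i v
    obtain ⟨c, hc⟩ := exists_ne v.2
    exact ⟨(i, c), rfl, fun h => hc (Prod.ext_iff.1 h).2.symm⟩
  refine ⟨{p | p.1 = i}, {p | p.1 = j}, ?_, h i, h j⟩
  rw [Set.disjoint_left]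
  intro p h1 h2
  exact hij (h1.symm.trans h2)

theorem lower (k : ℕ) (H : SimpleGraph (Fin (2 * k + 1) × Fin (2 * k + 1)))
    (h2 : TwoTD H) : k * k ≤ (H.edgeSet \ (G (2 * k + 1)).edgeSet).ncard := by
  classical
  obtain ⟨S, T, hST, hS, hT⟩ := h2
  set A : Finset (Fin (2 * k + 1)) := Finset.univ.filter (fun i => (i, i) ∈ S) with hA
  set B : Finset (Fin (2 * k + 1) × Fin (2 * k + 1)) := A.offDiag ∪ Aᶜ.offDiag with hB
  have hnew : ∀ p ∈ B, ∃ u, H.Adj p u ∧ ¬ (G (2 * k + 1)).Adj p u := by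
    intro p hp
    rcases Finset.mem_union.1 hp with hp | hp
    · obtain ⟨h1, h2, h3⟩ := Finset.mem_offDiag.1 hp
      obtain ⟨u, hu, hadj⟩ := hT p
      refine ⟨u, hadj, fun h => ?_⟩
      have hu' : u ∉ S := fun h => Set.disjoint_left.1 hST h hu
      rcases adj_off h3 h with rfl | rfl
      · exact hu' (by simpa [hA] using h1)
      · exact hu' (by simpa [hA] using h2)
    · obtain ⟨h1, h2, h3⟩ := Finset.mem_offDiag.1 hp
      obtain ⟨u, hu, hadj⟩ := hS p
      refine ⟨u, hadj, fun h => ?_⟩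
      rcases adj_off h3 h with rfl | rfl
      · exact (by simpa [hA] using h1 : (p.1, p.1) ∉ S) hu
      · exact (by simpa [hA] using h2 : (p.2, p.2) ∉ S) hu
  choose! u hu using hnew
  have hle : B.card ≤ 2 * (H.edgeSet \ (G (2 * k + 1)).edgeSet).toFinset.card := by
    refine Finset.card_le_mul_card_image_of_maps_to (f := fun p => s(p, u p)) ?_ 2 ?_
    · intro p hp
      simpa using hu p hp
    · intro e _
      induction e using Sym2.ind with
      | h x y =>
        refine le_trans (Finset.card_le_card (t := {x, y}) ?_) Finset.card_le_two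
        intro p hp
        have := (Finset.mem_filter.1 hp).2
        rcases Sym2.eq_iff.1 this with h | h
        · simp [h.1]
        · simp [h.1]
  have hdis : Disjoint A.offDiag Aᶜ.offDiag := by
    rw [Finset.disjoint_left]
    intro p h1 h2
    exact Finset.mem_compl.1 (Finset.mem_offDiag.1 h2).1 (Finset.mem_offDiag.1 h1).1
  have hsum : A.card + Aᶜ.card = 2 * k + 1 := by
    rw [Finset.card_add_card_compl, Fintype.card_fin]
  rw [hB, Finset.card_union_of_disjoint hdis, Finset.offDiag_card, Finset.offDiag_card,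
    ← Set.ncard_eq_toFinset_card'] at hle
  generalize A.card = a at hle hsum
  generalize Aᶜ.card = b at hle hsum
  have ha : a ≤ a * a := Nat.le_mul_self a
  have hb : b ≤ b * b := Nat.le_mul_self b
  have h3 : 2 * (k * k) + a + b ≤ a * a + b * b := by
    have h4 : (2 * (k * k) + a + b : ℤ) ≤ a * a + b * b := by
      have hs : (b : ℤ) = 2 * k + 1 - a := by omega
      rw [hs]
      have : (0 : ℤ) ≤ (a - k) * (a - k - 1) := by
        rcases le_or_gt (a : ℤ) k with h | h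
        · exact mul_nonneg_of_nonpos_of_nonpos (by omega) (by omega)
        · exact mul_nonneg (by omega) (by omega)
      nlinarith
    exact_mod_cast h4
  omega

theorem result : ∀ k : ℕ, 1 ≤ k → ∃ G : SimpleGraph (Fin (2 * k + 1) × Fin (2 * k + 1)),
    G.Connected ∧ (∀ v, 2 ≤ (G.neighborSet v).ncard) ∧
      (((2 * k + 1) ^ 2 : ℕ) - 2 * Real.sqrt ((2 * k + 1) ^ 2 : ℕ)) / 4 < (td G : ℝ) := by
  intro k hk
  refine ⟨G _, conn _ (by omega), mindeg _ (by omega), ?_⟩
  obtain ⟨H, _, hH, h2⟩ := Nat.sInf_mem (s := {m | ∃ H, G (2 * k + 1) ≤ H ∧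
    (H.edgeSet \ (G (2 * k + 1)).edgeSet).ncard = m ∧ TwoTD H})
    ⟨_, ⊤, le_top, rfl, top_two _ (by omega)⟩
  have h3 : k * k ≤ td (G (2 * k + 1)) := le_trans (lower k H h2) hH.le
  have h4 : (k : ℝ) * k ≤ td (G (2 * k + 1)) := by exact_mod_cast h3
  push_cast
  rw [Real.sqrt_sq (by positivity)]
  nlinarith

end Pool.Agent.Results.MP_df5a7a_co.Counter
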